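import Pool.Agent.Q38.GE.Stm

/-! Project GE of helper38: job PEN (helper174) -/

set_option autoImplicit false

open Matrix Q38.GE

namespace Pool.Agent.Q174.GE

theorem mem_wds {n : ℕ} : ∀ (N : ℕ) (u : Wd n), u ∈ wds n N ↔ u.length < N := by
  intro N
  induction N with
  | zero => intro u; simp [wds]
  | succ N ih =>
    intro u
    cases u with
    | nil => simp [wds]
    | cons i u =>
      simp only [wds, Finset.mem_insert, reduceCtorEq, Finset.mem_image, Finset.mem_product,
        Finset.mem_univ, true_and, Prod.exists, List.cons.injEq, List.length_cons, false_or]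
      constructor
      · rintro ⟨a, b, hb, rfl, rfl⟩
        have := (ih b).1 hb
        omega
      · intro h
        exact ⟨i, u, (ih u).2 (by omega), rfl, rfl⟩

section
variable {D : Type} [DivisionRing D] {n p d : ℕ} (c : Wd n → Matrix (Fin p) (Fin p) D)

/-- the product of the pencil along a word -/
def P (d : ℕ) (w : Wd n) :
    Matrix ({u // u ∈ wds n d} × Fin p) ({u // u ∈ wds n d} × Fin p) D := (w.map (QM d c)).prod

theorem P_append (d : ℕ) (v w : Wd n) : P c d (v ++ w) = P c d v * P c d w := by
  simp [P, List.map_append]

theorem row (hd : 1 ≤ d) (hc : ∀ u, d < u.length → c u = 0) (g : Wd n → Matrix (Fin p) (Fin p) D)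
    (hg0 : g [] = 1)
    (hg : ∀ w, w ≠ [] → g w = ∑ k ∈ Finset.range w.length, g (w.drop (k + 1)) * c (w.take (k + 1)))
    (e0 : {u // u ∈ wds n d}) (he0 : e0.1 = []) :
    ∀ (w : Wd n) (a b : Fin p) (t : {u // u ∈ wds n d}),
      P c d w.reverse (e0, a) (t, b) = if t.1 <+: w then g (w.drop t.1.length) a b else 0 := by
  intro w
  induction w with
  | nil =>
    intro a b t
    simp only [List.reverse_nil, P, List.map_nil, List.prod_nil, List.prefix_nil, List.drop_nil]
    by_cases ht : t.1 = []
    · have : e0 = t := Subtype.ext (by rw [he0, ht])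
      rw [if_pos ht, hg0, this]
      by_cases hab : a = b
      · subst hab; simp
      · rw [Matrix.one_apply_ne hab, Matrix.one_apply_ne]
        intro h
        exact hab (Prod.ext_iff.1 h).2
    · rw [if_neg ht, Matrix.one_apply_ne]
      intro h
      have h' : e0 = t := (Prod.ext_iff.1 h).1
      exact ht (by rw [← h', he0])
  | cons i w ih =>
    intro a b t
    rw [List.reverse_cons, P_append, Matrix.mul_apply, Fintype.sum_prod_type]
    have hPi : P c d [i] = QM d c i := by simp [P]
    rw [hPi]
    obtain ⟨t, ht⟩ := t
    cases t with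
    | nil =>
      simp only [List.nil_prefix, if_true, List.length_nil, List.drop_zero]
      have h1 : ∀ (s : {u // u ∈ wds n d}), ∑ y, P c d w.reverse (e0, a) (s, y) *
          QM d c i (s, y) (⟨[], ht⟩, b) =
          if s.1 <+: w then (g (w.drop s.1.length) * c (i :: s.1)) a b else 0 := by
        intro s
        by_cases hs : s.1 <+: w
        · rw [if_pos hs, Matrix.mul_apply]
          refine Finset.sum_congr rfl fun y _ => ?_
          rw [ih, if_pos hs]
          simp [QM]
        · rw [if_neg hs]
          refine Finset.sum_eq_zero fun y _ => ?_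
          rw [ih, if_neg hs, zero_mul]
      rw [Finset.sum_congr rfl fun s _ => h1 s]
      rw [hg (i :: w) (by simp), Matrix.sum_apply]
      simp only [List.length_cons, List.drop_succ_cons, List.take_succ_cons]
      rw [← Finset.sum_filter]
      -- both sides are sums over prefixes of `w` of length `< d`
      have h2 : ∑ k ∈ Finset.range (w.length + 1), (g (w.drop k) * c (i :: w.take k)) a b =
          ∑ k ∈ (Finset.range (w.length + 1)).filter (fun k => k < d),
            (g (w.drop k) * c (i :: w.take k)) a b := by
        rw [Finset.sum_filter]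
        refine Finset.sum_congr rfl fun k hk => ?_
        rw [Finset.mem_range] at hk
        split_ifs with h
        · rfl
        · rw [hc (i :: w.take k), mul_zero]
          · rfl
          · rw [List.length_cons, List.length_take]
            omega
      rw [h2]
      symm
      refine Finset.sum_bij' (i := fun k hk => (⟨w.take k, ?_⟩ : {u // u ∈ wds n d}))
        (j := fun s _ => s.1.length) ?_ ?_ ?_ ?_ ?_
      · rw [mem_wds, List.length_take]
        rw [Finset.mem_filter] at hk
        omega
      · intro k hk
        rw [Finset.mem_filter]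
        exact ⟨Finset.mem_univ _, List.take_prefix _ _⟩
      · intro s hs
        rw [Finset.mem_filter] at hs
        rw [Finset.mem_filter, Finset.mem_range]
        exact ⟨Nat.lt_succ_of_le hs.2.length_le, (mem_wds d s.1).1 s.2⟩
      · intro k hk
        rw [Finset.mem_filter, Finset.mem_range] at hk
        simp only [List.length_take]
        omega
      · intro s hs
        rw [Finset.mem_filter] at hs
        exact Subtype.ext (List.prefix_iff_eq_take.1 hs.2).symm
      · intro k hk
        rw [Finset.mem_filter, Finset.mem_range] at hk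
        have : (w.take k).length = k := by rw [List.length_take]; omega
        simp only [this]
    | cons j t =>
      have ht' : t ∈ wds n d := by
        rw [mem_wds] at ht ⊢
        rw [List.length_cons] at ht
        omega
      have h1 : ∀ (s : {u // u ∈ wds n d}), ∑ y, P c d w.reverse (e0, a) (s, y) *
          QM d c i (s, y) (⟨j :: t, ht⟩, b) =
          if j = i ∧ s = ⟨t, ht'⟩ then P c d w.reverse (e0, a) (s, b) else 0 := by
        intro s
        have h3 : ∀ y, QM d c i (s, y) (⟨j :: t, ht⟩, b) =
            if (j = i ∧ s = ⟨t, ht'⟩) ∧ y = b then 1 else 0 := by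
          intro y
          simp only [QM, reduceCtorEq, if_false, List.cons.injEq]
          refine if_congr ?_ rfl rfl
          refine and_congr (and_congr Iff.rfl ?_) Iff.rfl
          constructor
          · intro h; exact Subtype.ext h.symm
          · intro h; rw [h]
        simp only [h3]
        by_cases hs : j = i ∧ s = ⟨t, ht'⟩
        · rw [if_pos hs]
          simp [hs]
        · rw [if_neg hs]
          refine Finset.sum_eq_zero fun y _ => ?_
          rw [if_neg (fun h => hs h.1), mul_zero]
      rw [Finset.sum_congr rfl fun s _ => h1 s]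
      by_cases hj : j = i
      · subst hj
        simp only [true_and]
        rw [Finset.sum_ite_eq' Finset.univ (⟨t, ht'⟩ : {u // u ∈ wds n d}), if_pos (Finset.mem_univ _), ih]
        simp only [List.cons_prefix_cons, true_and, List.length_cons, List.drop_succ_cons]
      · simp only [hj, false_and, if_false, Finset.sum_const_zero]
        rw [if_neg]
        rw [List.cons_prefix_cons]
        exact fun h => hj h.1
end

theorem pen (h : S_LEV) : S_PEN := by
  intro D _ n p d c hd hc hnil g hg0 hg w hw
  have he0 : ([] : Wd n) ∈ wds n d := (mem_wds d []).2 (by rw [List.length_nil]; omega)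
  have hrow := row (d := d) c hd hc g hg0 hg ⟨[], he0⟩ rfl w
  let ι := {u // u ∈ wds n d} × Fin p
  let T : Matrix ι ι D → Module.End D (ι → D) := fun M => Matrix.vecMulLinear M
  have hT : ∀ (M : Matrix ι ι D) (v : ι → D), T M v = v ᵥ* M := fun M v => rfl
  have hTmul : ∀ M N : Matrix ι ι D, T M * T N = T (N * M) := by
    intro M N
    refine LinearMap.ext fun v => ?_
    rw [Module.End.mul_apply, hT, hT, hT, Matrix.vecMul_vecMul]
  have hT1 : T 1 = 1 := by
    refine LinearMap.ext fun v => ?_
    rw [hT, Matrix.vecMul_one]; rfl
  have hT0 : T 0 = 0 := by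
    refine LinearMap.ext fun v => ?_
    rw [hT, Matrix.vecMul_zero]; rfl
  have hTpow : ∀ (M : Matrix ι ι D) (k : ℕ), T M ^ k = T (M ^ k) := by
    intro M k
    induction k with
    | zero => rw [pow_zero, pow_zero, hT1]
    | succ k ih => rw [pow_succ, ih, hTmul, pow_succ']
  have hTinj : ∀ M : Matrix ι ι D, T M = 0 → M = 0 := by
    intro M hM
    ext i j
    have h1 := congrFun (LinearMap.congr_fun hM (Pi.single i 1)) j
    rw [hT, Matrix.single_one_vecMul] at h1
    exact h1
  let S : Set (Module.End D (ι → D)) := {e | ∃ v : Wd n, v ≠ [] ∧ e = T (P c d v)}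
  have hlist : ∀ v : Wd n, (v.map fun i => T (QM d c i)).prod = T (P c d v.reverse) := by
    intro v
    induction v with
    | nil => simp only [List.map_nil, List.prod_nil, List.reverse_nil, P]; exact hT1.symm
    | cons i v ih =>
      rw [List.map_cons, List.prod_cons, ih, hTmul, List.reverse_cons, P_append]
      congr 2
      simp [P]
  have key : (w.map fun i => T (QM d c i)).prod = 0 := by
    refine h D (ι → D) S ?_ ?_ _ ?_ ?_
    · rintro _ ⟨v, hv, rfl⟩ _ ⟨v', hv', rfl⟩
      exact ⟨v' ++ v, by simp [hv], by rw [hTmul, P_append]⟩
    · rintro _ ⟨v, hv, rfl⟩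
      obtain ⟨k, hk⟩ := hnil v hv
      refine ⟨k, ?_⟩
      rw [hTpow]
      change T ((v.map (QM d c)).prod ^ k) = 0
      rw [hk, hT0]
    · intro e he
      rw [List.mem_map] at he
      obtain ⟨i, -, rfl⟩ := he
      exact ⟨[i], by simp, by simp [P]⟩
    · rw [List.length_map, Module.finrank_fintype_fun_eq_card, Fintype.card_prod, Fintype.card_coe,
        Fintype.card_fin]
      exact hw
  rw [hlist] at key
  have h0 := hTinj _ key
  ext a b
  have h1 := hrow a b ⟨[], he0⟩
  rw [h0] at h1
  simpa using h1.symm

end Pool.Agent.Q174.GE
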